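import Pool.Agent.Q324.CC.Red

/-!
# MP_8cd8c6_lc, Q1: deciding whether the circular chromatic number is below 3 is NP-complete
-/

namespace Pool.Agent.Results.MP_8cd8c6_lc.BelowThreeNPComplete

open Pool.Agent.NPC Pool.Agent.H692R2 Pool.Agent.Q324.CC

/-- CIRC<3 is `NP`-complete: given a finite graph (by its adjacency matrix), to decide whether its
circular chromatic number is smaller than `3` is in `NP` and `NP`-hard under polynomial-time
many-one reductions. -/
theorem result :
    InNPP (fun G : FinGraph => circ G.graph < 3) ∧
    NPHardP (fun G : FinGraph => circ G.graph < 3) := by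
  have h : (fun G : FinGraph => circ G.graph < 3) =
      fun G : FinGraph => Small G.graph :=
    funext fun G => propext (circ_lt_three G.graph)
  rw [h]
  exact ⟨inNP_small, hardI_small.toNPHardP⟩

end Pool.Agent.Results.MP_8cd8c6_lc.BelowThreeNPComplete
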